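import Pool.Agent.Helper30_Simp2.Stmts
import Pool.Agent.Helper32_Simp.Ext

/-!
# Module EXT2: facet vectors of another slope in cones which are not flat
-/

set_option autoImplicit false

namespace Pool.Agent.Helper30_Simp2.H7

open Finset Pool.Agent.Helper6_Mono Pool.Agent.Helper30_Simp Pool.Agent.Helper30_Simp.H32

/-- a vector with `g ≠ 0` in a rational cone with as many tight conditions as possible -/
theorem exists_extremal2 {V ρ : Type} [AddCommGroup V] [Fintype ρ] (l : ρ → V →ₗ[ℤ] ℤ)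
    (E : Set ρ) (g : V →ₗ[ℤ] ℤ) (hinj : ∀ v, (∀ r, l r v = 0) → v = 0)
    (h0 : ∃ u : V, g u ≠ 0 ∧ (∀ r, 0 ≤ l r u) ∧ ∀ r ∈ E, l r u = 0) :
    ∃ κ : V, g κ ≠ 0 ∧ (∀ r, 0 ≤ l r κ) ∧ (∀ r ∈ E, l r κ = 0) ∧
      ∀ v, g v = 0 → (∀ r, l r κ = 0 → l r v = 0) → v = 0 := by
  classical
  let C : Set V := {u | g u ≠ 0 ∧ (∀ r, 0 ≤ l r u) ∧ ∀ r ∈ E, l r u = 0}
  let f : V → ℕ := fun u => (univ.filter fun r => l r u ≠ 0).card
  have hC : C.Nonempty := h0
  obtain ⟨κ, hκ, hmin⟩ : ∃ κ ∈ C, ∀ u ∈ C, f κ ≤ f u :=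
    ⟨Function.argminOn f C hC, Function.argminOn_mem f C hC,
      fun u hu => Function.argminOn_le f C hu⟩
  refine ⟨κ, hκ.1, hκ.2.1, hκ.2.2, fun v hv ht => ?_⟩
  by_contra hv0
  obtain ⟨v, hv, ht, r0, hr0⟩ : ∃ v, g v = 0 ∧ (∀ r, l r κ = 0 → l r v = 0) ∧
      ∃ r, l r v < 0 := by
    obtain ⟨r, hr⟩ : ∃ r, l r v ≠ 0 := by
      by_contra h
      push Not at h
      exact hv0 (hinj v h)
    rcases lt_or_gt_of_ne hr with h | h
    · exact ⟨v, hv, ht, r, h⟩
    · refine ⟨-v, by rw [map_neg, hv, neg_zero], fun s hs => by rw [map_neg, ht s hs, neg_zero],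
        r, ?_⟩
      rw [map_neg]
      omega
  obtain ⟨r, hr, hrmin⟩ := Finset.exists_min_image (univ.filter fun r => l r v < 0)
    (fun r => (l r κ : ℚ) / (-(l r v) : ℤ)) ⟨r0, by simpa using hr0⟩
  have hrv : l r v < 0 := by simpa using hr
  have hrκ : 0 < l r κ := by
    rcases (hκ.2.1 r).lt_or_eq with h | h
    · exact h
    · exfalso
      have := ht r h.symm
      omega
  set w : V := (-(l r v)) • κ + (l r κ) • v with hw
  have hlw : ∀ s, l s w = (-(l r v)) * l s κ + (l r κ) * l s v := by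
    intro s
    rw [hw, map_add, map_smul, map_smul, smul_eq_mul, smul_eq_mul]
  have hwC : w ∈ C := by
    refine ⟨?_, fun s => ?_, fun s hs => ?_⟩
    · have h1 : g w = (-(l r v)) * g κ := by
        rw [hw, map_add, map_smul, map_smul, smul_eq_mul, smul_eq_mul, hv, mul_zero, add_zero]
      rw [h1]
      exact mul_ne_zero (by omega) hκ.1
    · rw [hlw]
      rcases le_or_gt 0 (l s v) with h | h
      · have h1 := hκ.2.1 s
        have h2 : 0 ≤ (-(l r v)) * l s κ := mul_nonneg (by omega) h1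
        have h3 : 0 ≤ (l r κ) * l s v := mul_nonneg hrκ.le h
        omega
      · have h1 := hrmin s (by simpa using h)
        rw [div_le_div_iff₀ (by exact_mod_cast (by omega : (0 : ℤ) < -(l r v)))
          (by exact_mod_cast (by omega : (0 : ℤ) < -(l s v)))] at h1
        have h2 : l r κ * (-(l s v)) ≤ l s κ * (-(l r v)) := by exact_mod_cast h1
        nlinarith
    · rw [hlw, hκ.2.2 s hs, ht s (hκ.2.2 s hs)]
      ring
  have hlt : f w < f κ := by
    refine Finset.card_lt_card ⟨fun s hs => ?_, fun hsub => ?_⟩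
    · simp only [Finset.mem_filter, Finset.mem_univ, true_and] at hs ⊢
      intro h
      apply hs
      rw [hlw, h, ht s h]
      ring
    · have h1 : r ∈ univ.filter fun s => l s κ ≠ 0 := by
        simp only [Finset.mem_filter, Finset.mem_univ, true_and]
        omega
      have h2 := hsub h1
      simp only [Finset.mem_filter, Finset.mem_univ, true_and] at h2
      apply h2
      rw [hlw]
      ring
  exact absurd (hmin w hwC) (by omega)

variable {σ : Type} [Fintype σ]

/-- the conditions: the walls and `N ≥ 0` -/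
def cond2 (M : Finset (σ →₀ ℕ)) : Option (Wa M) → ((σ → ℤ) × ℤ) →ₗ[ℤ] ℤ
  | none => LinearMap.snd ℤ _ _
  | some (Sum.inl i) => (LinearMap.proj i).comp (LinearMap.fst ℤ _ _)
  | some (Sum.inr β) => (dotL β.1).comp (LinearMap.fst ℤ _ _) - LinearMap.snd ℤ _ _

theorem cond2_none (M : Finset (σ →₀ ℕ)) (v : (σ → ℤ) × ℤ) : cond2 M none v = v.2 := rfl

theorem cond2_inl (M : Finset (σ →₀ ℕ)) (i : σ) (v : (σ → ℤ) × ℤ) :
    cond2 M (some (Sum.inl i)) v = v.1 i := rfl

theorem cond2_inr (M : Finset (σ →₀ ℕ)) (β : M) (v : (σ → ℤ) × ℤ) :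
    cond2 M (some (Sum.inr β)) v = dotL β.1 v.1 - v.2 := rfl

/-- the integral form `q |u| - p N` for `x = p / q` -/
def gx (σ : Type) [Fintype σ] (x : ℚ) : ((σ → ℤ) × ℤ) →ₗ[ℤ] ℤ :=
  (x.den : ℤ) • (∑ i : σ, (LinearMap.proj i).comp (LinearMap.fst ℤ _ _)) -
    x.num • LinearMap.snd ℤ _ _

theorem gx_apply (x : ℚ) (v : (σ → ℤ) × ℤ) :
    gx σ x v = x.den * ∑ i, v.1 i - x.num * v.2 := by
  unfold gx
  rw [LinearMap.sub_apply, LinearMap.smul_apply, LinearMap.smul_apply, LinearMap.sum_apply]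
  rfl

/-- Module EXT2. -/
theorem ext2 : Ext2Stmt := by
  classical
  intro σ _ M hM x S hfl
  unfold Flat at hfl
  push Not at hfl
  obtain ⟨u, n, hu, hun⟩ := hfl
  set E : Set (Option (Wa M)) := {r | ∃ s ∈ S, r = some s} with hE
  have hgx : ∀ (κ : σ → ℕ) (N : ℕ), gx σ x (fun i => (κ i : ℤ), (N : ℤ)) = 0 ↔
      ((∑ i, κ i : ℕ) : ℚ) = x * N := by
    intro κ N
    rw [gx_apply]
    change (x.den : ℤ) * ∑ i, ((κ i : ℕ) : ℤ) - x.num * ((N : ℕ) : ℤ) = 0 ↔ _
    have h1 : ((x.den : ℤ) : ℚ) ≠ 0 := by exact_mod_cast x.den_ne_zero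
    have h2 : (x.den : ℚ) * x = x.num := Rat.den_mul_eq_num x
    constructor
    · intro h
      have h3 : ((x.den : ℤ) : ℚ) * ((∑ i, κ i : ℕ) : ℚ) = ((x.den : ℤ) : ℚ) * (x * N) := by
        have h4 : ((x.den : ℚ) * ∑ i, ((κ i : ℤ) : ℚ) - x.num * ((N : ℤ) : ℚ)) = 0 := by
          exact_mod_cast h
        push_cast at h4 ⊢
        rw [← mul_assoc, h2]
        linarith
      exact mul_left_cancel₀ h1 h3
    · intro h
      have h3 : ((x.den : ℚ) * ∑ i, ((κ i : ℤ) : ℚ) - x.num * ((N : ℤ) : ℚ)) = 0 := by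
        push_cast at h ⊢
        rw [h, ← mul_assoc, h2]
        ring
      exact_mod_cast h3
  have hto : ∀ (κ : σ → ℕ) (N : ℕ), InK M S κ N ↔
      (∀ r, 0 ≤ cond2 M r (fun i => (κ i : ℤ), (N : ℤ))) ∧
        ∀ r ∈ E, cond2 M r (fun i => (κ i : ℤ), (N : ℤ)) = 0 := by
    intro κ N
    have hs : ∀ r : Wa M, cond2 M (some r) (fun i => (κ i : ℤ), (N : ℤ)) = slk M κ N r := by
      intro r
      rcases r with i | β
      · rfl
      · rw [cond2_inr]
        show dotL β.1 (fun i => (κ i : ℤ)) - (N : ℤ) = _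
        rw [dotL_nat]
        rfl
    constructor
    · rintro ⟨h1, h2⟩
      refine ⟨fun r => ?_, ?_⟩
      · rcases r with _ | r
        · rw [cond2_none]
          exact Int.natCast_nonneg N
        · rw [hs]
          exact h1 r
      · rintro r ⟨s, hsS, rfl⟩
        rw [hs]
        exact h2 s hsS
    · rintro ⟨h1, h2⟩
      refine ⟨fun r => ?_, fun r hr => ?_⟩
      · rw [← hs]
        exact h1 _
      · rw [← hs]
        exact h2 _ ⟨r, hr, rfl⟩
  have hnat : ∀ w : (σ → ℤ) × ℤ, (∀ r, 0 ≤ cond2 M r w) →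
      ∃ (κ : σ → ℕ) (N : ℕ), w = (fun i => (κ i : ℤ), (N : ℤ)) := by
    intro w hw
    refine ⟨fun i => (w.1 i).toNat, w.2.toNat, Prod.ext (funext fun i => ?_) ?_⟩
    · have : 0 ≤ w.1 i := hw (some (Sum.inl i))
      exact (Int.toNat_of_nonneg this).symm
    · have : 0 ≤ w.2 := hw none
      exact (Int.toNat_of_nonneg this).symm
  obtain ⟨w, hw0, hw1, hw2, hw3⟩ := exists_extremal2 (cond2 M) E (gx σ x)
    (fun v hv => Prod.ext (funext fun i => hv (some (Sum.inl i))) (hv none))
    ⟨(fun i => (u i : ℤ), (n : ℤ)), fun h => hun ((hgx u n).1 h), ((hto u n).1 hu).1,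
      ((hto u n).1 hu).2⟩
  obtain ⟨κ, N, rfl⟩ := hnat w hw1
  have hκ : InK M S κ N := (hto κ N).2 ⟨hw1, hw2⟩
  have hne : ((∑ i, κ i : ℕ) : ℚ) ≠ x * N := fun h => hw0 ((hgx κ N).2 h)
  have hge : ∀ β ∈ M, N ≤ dot κ β := by
    intro β hβ
    have h1 := hκ.1 (Sum.inr ⟨β, hβ⟩)
    simp only [slk] at h1
    omega
  rcases Nat.eq_zero_or_pos N with hN | hN
  · refine ⟨κ, N, ?_, hκ, Or.inl hN⟩
    rintro rfl
    apply hne
    rw [hN]
    simp
  -- some monomial is tight
  have hex : ∃ α ∈ M, dot κ α = N := by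
    by_contra hno
    push Not at hno
    have h1 := hw3 (gx σ x (fun i => (κ i : ℤ), (N : ℤ)) • ((0, 1) : (σ → ℤ) × ℤ) -
      gx σ x (0, 1) • ((fun i => (κ i : ℤ), (N : ℤ)) : (σ → ℤ) × ℤ)) (by
        rw [map_sub, map_smul, map_smul, smul_eq_mul, smul_eq_mul]
        ring) (by
        intro r hr
        rcases r with _ | i | β
        · rw [cond2_none] at hr
          simp only at hr
          omega
        · rw [cond2_inl] at hr ⊢
          simp only at hr
          have : (κ i : ℤ) = 0 := hr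
          simp [this]
        · exfalso
          rw [cond2_inr] at hr
          simp only at hr
          rw [dotL_nat] at hr
          exact hno β.1 β.2 (by omega))
    have h2 : ∀ i, (κ i : ℤ) * gx σ x (0, 1) = 0 := by
      intro i
      have h3 := congrFun (congrArg Prod.fst h1) i
      simp at h3
      rcases h3 with h3 | h3
      · rw [h3, mul_zero]
      · rw [h3]
        simp
    have h3 : gx σ x (fun i => (κ i : ℤ), (N : ℤ)) = gx σ x (0, 1) * N := by
      have h4 := congrArg Prod.snd h1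
      simp at h4
      linarith
    by_cases hg : gx σ x (0, 1) = 0
    · exact hw0 (by rw [h3, hg, zero_mul])
    · obtain ⟨β, hβ⟩ := hM
      have h4 := hge β hβ
      have h5 : dot κ β = 0 := by
        unfold dot
        refine Finset.sum_eq_zero fun i _ => ?_
        have := h2 i
        rcases mul_eq_zero.1 this with h | h
        · have : κ i = 0 := by exact_mod_cast h
          simp [this]
        · exact absurd h hg
      omega
  obtain ⟨α₀, hα₀, hα₀N⟩ := hex
  have hface : ∀ β, β ∈ face M κ ↔ β ∈ M ∧ dot κ β = N := by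
    intro β
    constructor
    · rintro ⟨h1, h2⟩
      exact ⟨h1, le_antisymm (hα₀N ▸ h2 α₀ hα₀) (hge β h1)⟩
    · rintro ⟨h1, h2⟩
      exact ⟨h1, fun γ hγ => h2 ▸ hge γ hγ⟩
  refine ⟨κ, N, ?_, hκ, Or.inr ⟨⟨fun α hα => hN.trans_le (hge α hα), ?_⟩,
    ⟨α₀, (hface α₀).2 ⟨hα₀, hα₀N⟩, hα₀N⟩, hne⟩⟩
  · rintro rfl
    have := hge α₀ hα₀
    simp [dot] at this
    omega
  by_contra hspan
  obtain ⟨φ, hφ0, hφ⟩ := Submodule.exists_le_ker_of_lt_top _ (lt_top_iff_ne_top.2 hspan)
  have hφsum : ∀ x : σ → ℚ, φ x = ∑ i, x i * φ (Pi.single i 1) := by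
    intro x
    conv_lhs => rw [← Finset.univ_sum_single x, map_sum]
    refine Finset.sum_congr rfl fun i _ => ?_
    rw [← smul_eq_mul, ← map_smul]
    congr 1
    rw [← Pi.single_smul, smul_eq_mul, mul_one]
  obtain ⟨D, v, hD, hv⟩ := exists_int fun i => φ (Pi.single i 1)
  have hface0 : ∀ α ∈ face M κ, dotL α v = 0 := by
    intro α hα
    have h1 : (fun i => (α i : ℚ)) ∈ LinearMap.ker φ :=
      hφ (Submodule.subset_span (Or.inl ⟨α, hα, rfl⟩))
    rw [LinearMap.mem_ker, hφsum] at h1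
    have h2 : ((dotL α v : ℤ) : ℚ) = 0 := by
      rw [dotL_apply]
      push_cast
      have h3 : ∑ i, (α i : ℚ) * (v i : ℚ) = D * ∑ i, (α i : ℚ) * φ (Pi.single i 1) := by
        rw [Finset.mul_sum]
        refine Finset.sum_congr rfl fun i _ => ?_
        rw [hv i]
        ring
      rw [h3, h1, mul_zero]
    exact_mod_cast h2
  have hsingle : ∀ i, κ i = 0 → v i = 0 := by
    intro i hi
    have h1 : (Pi.single i 1 : σ → ℚ) ∈ LinearMap.ker φ := by
      refine hφ (Submodule.subset_span (Or.inr ⟨i, hi, Pi.single_eq_same _ _, fun j hj => ?_⟩))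
      exact Pi.single_eq_of_ne hj _
    rw [LinearMap.mem_ker] at h1
    have h2 := hv i
    rw [h1, mul_zero] at h2
    exact_mod_cast h2
  have hv0 : v = 0 := by
    have h1 := hw3 (gx σ x (fun i => (κ i : ℤ), (N : ℤ)) • ((v, 0) : (σ → ℤ) × ℤ) -
      gx σ x (v, 0) • ((fun i => (κ i : ℤ), (N : ℤ)) : (σ → ℤ) × ℤ)) (by
        rw [map_sub, map_smul, map_smul, smul_eq_mul, smul_eq_mul]
        ring) (by
        intro r hr
        rw [map_sub, map_smul, map_smul, hr, smul_zero, sub_zero, smul_eq_mul]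
        rcases r with _ | i | β
        · rw [cond2_none] at hr
          simp only at hr
          omega
        · rw [cond2_inl] at hr ⊢
          simp only at hr
          have h2 : κ i = 0 := by exact_mod_cast hr
          show _ * v i = 0
          rw [hsingle i h2, mul_zero]
        · rw [cond2_inr] at hr ⊢
          simp only at hr
          rw [dotL_nat] at hr
          have h2 : β.1 ∈ face M κ := (hface _).2 ⟨β.2, by omega⟩
          show _ * (dotL β.1 v - 0) = 0
          rw [hface0 _ h2, sub_zero, mul_zero])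
    have h2 : gx σ x (v, 0) = 0 := by
      have h4 := congrArg Prod.snd h1
      simp at h4
      rcases h4 with h4 | h4
      · exact h4
      · omega
    rw [h2, zero_smul, sub_zero] at h1
    have h3 := congrArg Prod.fst h1
    funext i
    have h4 := congrFun h3 i
    simp at h4
    rcases h4 with h4 | h4
    · exact absurd h4 hw0
    · exact h4
  apply hφ0
  refine LinearMap.ext fun x => ?_
  rw [hφsum, LinearMap.zero_apply]
  refine Finset.sum_eq_zero fun i _ => ?_
  have h1 := hv i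
  rw [hv0] at h1
  simp only [Pi.zero_apply, Int.cast_zero] at h1
  have h2 : φ (Pi.single i 1) = 0 := by
    rcases mul_eq_zero.1 h1.symm with h | h
    · exact absurd (by exact_mod_cast h) hD
    · exact h
  rw [h2, mul_zero]

end Pool.Agent.Helper30_Simp2.H7
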